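import Pool.Agent.Zk28.TF.Vol
import Pool.Agent.Zk28.TF.LDefs

/-!
The volume of a distribution is the divisor of a leafwise form (module for helper28).
-/

set_option autoImplicit false
set_option linter.unusedSectionVars false

open FF Pool.Agent.W602.GT

namespace Pool.Agent.Zk26.TF

open Pool.Agent.Zk28.TS Pool.Agent.Zk28.TF

variable {K : Type} [Field K] [Algebra ℂ K]

/-- the sum of the norms counts the vector fields which are not logarithmic -/
theorem sum_et (P : Place ℂ K) (δ : ℝ) {r : ℕ} (D : Fin r → Derivation ℂ K K) :
    ∑ i, et P δ (D i) = -(({a | ¬ DerLog P (D a)}.ncard : ℝ) * δ) := by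
  classical
  have h1 : {a | ¬ DerLog P (D a)}.ncard = (Finset.univ.filter fun a => ¬ DerLog P (D a)).card := by
    rw [Set.ncard_eq_toFinset_card', Set.toFinset_ofPred]
  have h2 : ∀ i, et P δ (D i) = if ¬ DerLog P (D i) then -δ else 0 := by
    intro i
    by_cases h : DerLog P (D i)
    · rw [et_log h, if_neg (not_not.2 h)]
    · rw [et_nlog h, if_pos h]
  rw [h1, Finset.sum_congr rfl fun i _ => h2 i, ← Finset.sum_filter, Finset.sum_const,
    nsmul_eq_mul]
  ring

theorem leafDiv {n : ℕ} [Algebra.EssFiniteType ℂ K] [Module.Finite K (Derivation ℂ K K)]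
    (htr : Algebra.trdeg ℂ K = n) {X : Set (Place ℂ K)} {δ : Place ℂ K → ℝ}
    (hδ : ∀ P ∈ X, 0 ≤ δ P ∧ δ P ≤ 1) (F : Submodule K (Derivation ℂ K K)) :
    ∃ θ : F [⋀^Fin (Module.finrank K F)]→ₗ[K] K, θ ≠ 0 ∧
      LeafDivOf n X δ F θ fun P => -vs δ F P := by
  classical
  set B := Module.finBasis K F with hB
  refine ⟨B.det, ?_, ?_⟩
  · intro h0
    have h1 := B.det_self
    rw [h0] at h1
    exact zero_ne_one h1
  · intro P hPX hP
    obtain ⟨A, hA⟩ := exists_tri' htr hP (bas_indep F)
    have hvs : vs δ F P = ∑ i, et P (δ P) (fr A (bas F) i) - P.ord (Matrix.of A).det := by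
      unfold vs
      rw [vol_eq (hδ P hPX) hA]
      unfold gv
      rw [Finset.sum_sub_distrib, tri_det_all hA.low, ord_prod' _ _ fun i _ => hA.diag i]
      push_cast
      rfl
    constructor
    · intro D hD
      -- the coordinates
      set Y : Matrix (Fin (Module.finrank K F)) (Fin (Module.finrank K F)) K :=
        Matrix.of fun i j => B.repr (D i) j with hY
      set Z := Y * (Matrix.of A)⁻¹ with hZ
      have hZA : Z * Matrix.of A = Y :=
        Matrix.nonsing_inv_mul_cancel_right _ _ (isUnit_iff_ne_zero.mpr hA.det)
      have hD1 : ∀ i, (D i : Derivation ℂ K K) = ∑ j, Y i j • bas F j := by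
        intro i
        have h1 := B.sum_repr (D i)
        have h2 := congrArg (fun v : F => (v : Derivation ℂ K K)) h1
        simp only [Submodule.coe_sum, Submodule.coe_smul] at h2
        rw [← h2]
        rfl
      have hDZ : ∀ i, (D i : Derivation ℂ K K) = ∑ j, Z i j • fr A (bas F) j := by
        intro i
        have h1 : ∑ j, Z i j • fr A (bas F) j = ∑ j, (Z * Matrix.of A) i j • bas F j := by
          unfold fr
          simp only [Finset.smul_sum, smul_smul]
          rw [Finset.sum_comm]
          refine Finset.sum_congr rfl fun j _ => ?_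
          rw [Matrix.mul_apply, Finset.sum_smul]
          rfl
        rw [h1, hZA, hD1 i]
      have hdet : B.det D = Z.det * (Matrix.of A).det := by
        rw [← Matrix.det_mul, hZA, Module.Basis.det_apply, ← Matrix.det_transpose]
        congr 1
      have hord : ∀ i j, GR P (et P (δ P) (D i : Derivation ℂ K K) - et P (δ P) (fr A (bas F) j))
          (Z i j) := by
        intro i j
        have h1 := hA.co (Z i) (by rw [← hDZ]; exact hD i)
        refine et_dom (hδ P hPX) (h1.1 j) fun hl hn => ?_
        exact h1.2 (by rw [← hDZ]; exact hl) j hn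
      have h1 := det_dom Z _ _ hord
      rcases h1 with h1 | h1
      · left
        rw [hdet, h1, zero_mul]
      · by_cases hZ0 : Z.det = 0
        · left
          rw [hdet, hZ0, zero_mul]
        · right
          rw [hdet, P.ord_mul hZ0 hA.det]
          rw [sum_et] at h1
          simp only
          rw [hvs]
          push_cast
          linarith
    · refine ⟨fun i => ⟨fr A (bas F) i, Submodule.sum_mem _ fun j _ =>
        Submodule.smul_mem _ _ (bas_mem F j)⟩, fun i => hA.reg i, ?_, ?_⟩
      all_goals
        have hdet : B.det (fun i => (⟨fr A (bas F) i, Submodule.sum_mem _ fun j _ =>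
            Submodule.smul_mem _ _ (bas_mem F j)⟩ : F)) = (Matrix.of A).det := by
          rw [Module.Basis.det_apply, ← Matrix.det_transpose]
          congr 1
          ext i j
          rw [Matrix.transpose_apply, Module.Basis.toMatrix_apply]
          have h1 : (⟨fr A (bas F) i, Submodule.sum_mem _ fun j _ =>
              Submodule.smul_mem _ _ (bas_mem F j)⟩ : F) = ∑ j, A i j • B j := by
            apply Subtype.ext
            simp only [Submodule.coe_sum, Submodule.coe_smul]
            rfl
          rw [h1, map_sum, Finsupp.finsetSum_apply]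
          simp only [map_smul, Module.Basis.repr_self, Finsupp.smul_single, smul_eq_mul, mul_one,
            Finsupp.single_apply]
          rw [Finset.sum_ite_eq']
          simp
      · rw [hdet]
        exact hA.det
      · rw [hdet]
        change (P.ord (Matrix.of A).det : ℝ) + ({a | ¬ DerLog P (fr A (bas F) a)}.ncard : ℝ) * δ P =
          -vs δ F P
        rw [hvs, sum_et]
        ring

end Pool.Agent.Zk26.TF
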